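import Pool.Graph.R_pool_sql_team_seeded_843ab51a.Results.MP_b2f7c1_co.ConjugateRoots

/-!
# All `X`-factorizations of bi-infinite words, for `X` with conjugate roots and full rank
-/

set_option autoImplicit false

namespace Pool.Agent.Results.MP_b2f7c1_co.AllFactorizations

open Pool.Agent.V11172.WordRank
open Pool.Agent.Results.MP_b2f7c1_co.ConjugateRoots

variable {α : Type*}

/-- `w` has two different `X`-factorizations. -/
def TwoDifferent (X : Finset (List α)) (w : ℤ → α) : Prop :=
  ∃ c₁ c₂ : ℤ → ℤ, IsFact X w c₁ ∧ IsFact X w c₂ ∧ Set.range c₁ ≠ Set.range c₂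

/-- the group of the periods of `w` -/
def per (w : ℤ → α) : AddSubgroup ℤ where
  carrier := {p | ∀ i, w (i + p) = w i}
  zero_mem' := fun i => by rw [add_zero]
  add_mem' := by
    intro a b ha hb i
    rw [← add_assoc, hb, ha]
  neg_mem' := by
    intro a ha i
    have := ha (i + -a)
    rw [add_assoc, neg_add_cancel, add_zero] at this
    exact this.symm

lemma mem_per {w : ℤ → α} {p : ℤ} : p ∈ per w ↔ ∀ i, w (i + p) = w i := Iff.rfl

lemma mul_mem_per {w : ℤ → α} {p : ℤ} (h : p ∈ per w) (q : ℤ) : p * q ∈ per w := by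
  have := (per w).zsmul_mem h q
  rwa [smul_eq_mul, mul_comm] at this

lemma dvd_mem_per {w : ℤ → α} {p d : ℤ} (h : p ∈ per w) (hd : p ∣ d) : d ∈ per w := by
  obtain ⟨q, rfl⟩ := hd
  exact mul_mem_per h q

lemma blk_shift {w : ℤ → α} {p : ℤ} (h : p ∈ per w) (t : ℤ) (n : ℕ) :
    blk w (t + p) n = blk w t n := by
  unfold blk
  apply List.map_congr_left
  intro j _
  rw [show t + p + (j : ℤ) = t + j + p by ring]
  exact h _

lemma blk_pow {w : ℤ → α} {n : ℕ} (h : (n : ℤ) ∈ per w) (t : ℤ) (k : ℕ) :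
    blk w t (k * n) = (List.replicate k (blk w t n)).flatten := by
  induction k with
  | zero => simp [blk]
  | succ k ih =>
    rw [show (k + 1) * n = n + k * n by ring, blk_add, blk_shift h, ih, List.replicate_succ,
      List.flatten_cons]

lemma block_blk (w : ℤ → α) (s : ℤ) (n : ℕ) : block w s (s + n) = blk w s n := by
  unfold block blk
  rw [add_sub_cancel_left, Int.toNat_natCast]

/-- two equal blocks of the length of a period differ by a period -/
lemma per_of_blk {w : ℤ → α} {m : ℕ} (hm : 0 < m) (h : (m : ℤ) ∈ per w) {s t : ℤ}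
    (he : blk w s m = blk w t m) : s - t ∈ per w := by
  intro i
  have hmZ : (0 : ℤ) < m := by exact_mod_cast hm
  obtain ⟨r, hr⟩ := Int.eq_ofNat_of_zero_le (Int.emod_nonneg (i - t) hmZ.ne')
  have hr2 : r < m := by
    have := Int.emod_lt_of_pos (i - t) hmZ
    rw [hr] at this
    exact_mod_cast this
  have hi : i = t + r + m * ((i - t) / m) := by
    have := Int.emod_add_mul_ediv (i - t) m
    rw [hr] at this
    linarith
  have h1 := blk_eq he hr2
  have h2 := mul_mem_per h ((i - t) / m)
  calc w (i + (s - t)) = w (s + r + m * ((i - t) / m)) := by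
        congr 1; linarith
    _ = w (s + r) := h2 _
    _ = w (t + r) := h1
    _ = w (t + r + m * ((i - t) / m)) := (h2 _).symm
    _ = w i := by rw [← hi]

/-- if a word of period `m` has a primitive block of length `m` then `m` divides all periods -/
lemma dvd_of_per {w : ℤ → α} {m : ℕ} (h : (m : ℤ) ∈ per w) {t : ℤ}
    (hp : IsPrimitive (blk w t m)) {d : ℤ} (hd : d ∈ per w) : (m : ℤ) ∣ d := by
  obtain ⟨a, ha⟩ := Int.subgroup_cyclic (per w)
  have hmem : ∀ x, x ∈ per w ↔ a ∣ x := by
    intro x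
    rw [ha, AddSubgroup.mem_closure_singleton]
    constructor
    · rintro ⟨n, rfl⟩
      rw [smul_eq_mul]
      exact Dvd.intro_left _ rfl
    · rintro ⟨n, rfl⟩
      exact ⟨n, by rw [smul_eq_mul, mul_comm]⟩
  have hg : ((a.natAbs : ℕ) : ℤ) ∈ per w := (hmem _).2 (Int.dvd_natAbs_self)
  have hgm : a.natAbs ∣ m := by
    have := Int.natAbs_dvd_natAbs.2 ((hmem _).1 h)
    rwa [Int.natAbs_natCast] at this
  obtain ⟨k, hk⟩ := hgm
  have h1 := blk_pow hg t k
  rw [mul_comm k, ← hk] at h1
  have hk1 := hp.2 _ _ h1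
  rw [hk1, mul_one] at hk
  rw [hk]
  exact Int.natAbs_dvd.2 ((hmem _).1 hd)

lemma range_of {c : ℤ → ℤ} {n : ℕ} (h : ∀ i, c i = c 0 + i * n) :
    Set.range c = {x | (n : ℤ) ∣ x - c 0} := by
  ext x
  constructor
  · rintro ⟨i, rfl⟩
    rw [Set.mem_ofPred_eq, h i, add_sub_cancel_left]
    exact Dvd.intro_left _ rfl
  · rintro ⟨q, hq⟩
    exact ⟨q, by rw [h q]; linarith [mul_comm (n : ℤ) q]⟩

lemma dvd_set_congr {n a b : ℤ} (h : n ∣ a - b) : {x | n ∣ x - a} = {x | n ∣ x - b} := by
  ext x
  constructor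
  · intro hx
    have : x - b = (x - a) + (a - b) := by ring
    rw [Set.mem_ofPred_eq, this]
    exact dvd_add hx h
  · intro hx
    have : x - a = (x - b) - (a - b) := by ring
    rw [Set.mem_ofPred_eq, this]
    exact dvd_sub hx h

section

variable {X : Finset (List α)} {root : List α → List α} {m : ℕ} {w : ℤ → α}

/-- the data of a periodic word containing all the roots -/
structure Good (X : Finset (List α)) (root : List α → List α) (m : ℕ) (w : ℤ → α)
    (T : List α → ℤ) : Prop where
  pos : 0 < m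
  mem : (m : ℤ) ∈ per w
  isRoot : ∀ u ∈ X, IsRoot (root u) u
  len : ∀ u ∈ X, (root u).length = m
  occ : ∀ u ∈ X, blk w (T u) m = root u

lemma exists_T (hper : (m : ℤ) ∈ per w)
    {a : List α} {t : ℤ} (ha : blk w t m = root a) (hrot : ∀ u ∈ X, root a ~r root u) :
    ∀ u ∈ X, ∃ T, blk w T m = root u := by
  intro u hu
  obtain ⟨n, hn⟩ := hrot u hu
  refine ⟨t + n, ?_⟩
  rw [← hn, ← ha]
  apply List.ext_getElem
  · simp [blk]
  · intro k h1 h2
    rw [List.getElem_rotate]
    simp only [blk, List.getElem_map, List.getElem_range, List.length_map, List.length_range]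
    have h3 := mul_mem_per hper (((k + n) / m : ℕ) : ℤ) (t + ((k + n) % m : ℕ))
    rw [← h3]
    congr 1
    have h4 : (((k + n) % m : ℕ) : ℤ) + m * (((k + n) / m : ℕ) : ℤ) = k + n := by
      exact_mod_cast Nat.mod_add_div (k + n) m
    linarith

variable {T : List α → ℤ}

lemma Good.length (hG : Good X root m w T) {u : List α} (hu : u ∈ X) :
    ∃ k : ℕ, 1 ≤ k ∧ u.length = k * m ∧ u = (List.replicate k (root u)).flatten := by
  obtain ⟨-, k, hk, e⟩ := hG.isRoot u hu
  refine ⟨k, hk, ?_, e⟩
  conv_lhs => rw [e]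
  simp [hG.len u hu]

lemma Good.blk_T (hG : Good X root m w T) {u : List α} (hu : u ∈ X) :
    blk w (T u) u.length = u := by
  obtain ⟨k, -, h1, h2⟩ := hG.length hu
  rw [h1, blk_pow hG.mem, hG.occ u hu, ← h2]

lemma Good.occ_iff (hG : Good X root m w T) {u : List α} (hu : u ∈ X) (s : ℤ) :
    block w s (s + u.length) = u ↔ (m : ℤ) ∣ s - T u := by
  rw [block_blk]
  constructor
  · intro h
    obtain ⟨k, hk, h1, -⟩ := hG.length hu
    obtain ⟨l, rfl⟩ : ∃ l, k = 1 + l := ⟨k - 1, by omega⟩
    have h2 : blk w s u.length = blk w (T u) u.length := h.trans (hG.blk_T hu).symm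
    rw [h1, show (1 + l) * m = m + l * m by ring, blk_add, blk_add] at h2
    obtain ⟨h3, -⟩ := List.append_inj h2 (by rw [blk_length, blk_length])
    exact dvd_of_per hG.mem (t := T u) (by rw [hG.occ u hu]; exact (hG.isRoot u hu).1)
      (per_of_blk hG.pos hG.mem h3)
  · intro h
    have h1 := blk_shift (dvd_mem_per hG.mem h) (T u) u.length
    rw [add_sub_cancel] at h1
    rw [h1, hG.blk_T hu]

/-- uniform factorizations -/
lemma Good.fact (hG : Good X root m w T) {u : List α} (hu : u ∈ X) {c : ℤ → ℤ}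
    (h1 : block w (c 0) (c 0 + u.length) = u) (h2 : ∀ i, c i = c 0 + i * u.length) :
    IsFact X w c := by
  obtain ⟨k, hk, h3, -⟩ := hG.length hu
  have hpos : 0 < u.length := by rw [h3]; exact Nat.mul_pos hk hG.pos
  have hposZ : (0 : ℤ) < u.length := by exact_mod_cast hpos
  have hstep : ∀ i, c (i + 1) = c i + u.length := by
    intro i
    rw [h2 (i + 1), h2 i]; ring
  refine ⟨fun i => by rw [hstep]; omega, fun i => ?_⟩
  have h4 : ((i * u.length : ℤ)) ∈ per w := dvd_mem_per hG.mem (by
    rw [h3]; push_cast; exact Dvd.intro_left (i * k) (by ring))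
  rw [block_blk] at h1
  rw [hstep, block_blk, h2 i, blk_shift h4, h1]
  exact hu

open Classical in
/-- the number of the cut sets of the uniform factorizations -/
lemma Good.count (hG : Good X root m w T) :
    {C : Set ℤ | ∃ c : ℤ → ℤ, (∃ u ∈ X, block w (c 0) (c 0 + u.length) = u ∧
      ∀ i, c i = c 0 + i * u.length) ∧ Set.range c = C}.Finite ∧
    {C : Set ℤ | ∃ c : ℤ → ℤ, (∃ u ∈ X, block w (c 0) (c 0 + u.length) = u ∧
      ∀ i, c i = c 0 + i * u.length) ∧ Set.range c = C}.ncard * m = ∑ u ∈ X, u.length := by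
  have hmZ : (0 : ℤ) < m := by exact_mod_cast hG.pos
  set S : Set (Set ℤ) := {C : Set ℤ | ∃ c : ℤ → ℤ, (∃ u ∈ X,
    block w (c 0) (c 0 + u.length) = u ∧ ∀ i, c i = c 0 + i * u.length) ∧ Set.range c = C} with hS
  set idx : Finset (Σ _ : List α, ℕ) := X.sigma (fun u => Finset.range (u.length / m)) with hidx
  let F : (Σ _ : List α, ℕ) → Set ℤ :=
    fun p => {x | (p.1.length : ℤ) ∣ x - (T p.1 + p.2 * m)}
  have hdiv : ∀ u ∈ X, 0 < u.length ∧ u.length = (u.length / m) * m := by
    intro u hu
    obtain ⟨k, hk, h3, -⟩ := hG.length hu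
    refine ⟨by rw [h3]; exact Nat.mul_pos hk hG.pos, ?_⟩
    rw [h3, Nat.mul_div_cancel _ hG.pos]
  have hSF : S = F '' (idx : Set (Σ _ : List α, ℕ)) := by
    ext C
    constructor
    · rintro ⟨c, ⟨u, hu, h1, h2⟩, rfl⟩
      obtain ⟨q, hq⟩ := (hG.occ_iff hu _).1 h1
      obtain ⟨hl, hk⟩ := hdiv u hu
      set k := u.length / m with hkdef
      have hk0 : 0 < k := by
        rcases Nat.eq_zero_or_pos k with h | h
        · rw [h, zero_mul] at hk; omega
        · exact h
      have hkZ : (0 : ℤ) < k := by exact_mod_cast hk0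
      refine ⟨⟨u, (q % k).toNat⟩, ?_, ?_⟩
      · rw [Finset.mem_coe, hidx, Finset.mem_sigma]
        refine ⟨hu, Finset.mem_range.2 ?_⟩
        have := Int.emod_lt_of_pos q hkZ
        show (q % k).toNat < u.length / m
        rw [← hkdef]
        omega
      · rw [range_of h2]
        show {x | (u.length : ℤ) ∣ x - (T u + ((q % k).toNat : ℕ) * m)} = _
        apply dvd_set_congr
        rw [Int.toNat_of_nonneg (Int.emod_nonneg q hkZ.ne')]
        have h5 : T u + q % k * m - c 0 = -((k : ℤ) * m) * (q / k) := by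
          have h6 := Int.emod_add_mul_ediv q k
          have h7 : q % k = q - k * (q / k) := by linarith
          rw [h7]
          have h8 : c 0 = T u + m * q := by linarith
          rw [h8]; ring
        rw [h5, neg_mul, dvd_neg]
        have h6 : (u.length : ℤ) = k * m := by exact_mod_cast hk
        rw [h6]
        exact Dvd.intro _ rfl
    · rintro ⟨⟨u, j⟩, hp, rfl⟩
      rw [Finset.mem_coe, hidx, Finset.mem_sigma] at hp
      obtain ⟨hu, -⟩ := hp
      refine ⟨fun i => T u + j * m + i * u.length, ⟨u, hu, ?_, fun i => by ring⟩, ?_⟩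
      · apply (hG.occ_iff hu _).2
        exact ⟨j, by ring⟩
      · rw [range_of (n := u.length) (fun i => by ring)]
        show {x : ℤ | (u.length : ℤ) ∣ x - (T u + j * m + 0 * u.length)} =
          {x | (u.length : ℤ) ∣ x - (T u + j * m)}
        rw [zero_mul, add_zero]
  have hinj : Set.InjOn F (idx : Set (Σ _ : List α, ℕ)) := by
    rintro ⟨u, j⟩ hp ⟨v, l⟩ hq heq
    rw [Finset.mem_coe, hidx, Finset.mem_sigma] at hp hq
    obtain ⟨hu, hj⟩ := hp
    obtain ⟨hv, hl⟩ := hq
    simp only at hu hv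
    have hj' : j < u.length / m := Finset.mem_range.1 hj
    have hl' : l < v.length / m := Finset.mem_range.1 hl
    have heq' : ∀ x : ℤ, (u.length : ℤ) ∣ x - (T u + j * m) ↔
        (v.length : ℤ) ∣ x - (T v + l * m) := fun x => Set.ext_iff.1 heq x
    have h1 := (heq' (T u + j * m)).1 (by rw [sub_self]; exact dvd_zero _)
    have h2 := (heq' (T u + j * m + u.length)).1 (by rw [add_sub_cancel_left])
    have h3 := (heq' (T v + l * m)).2 (by rw [sub_self]; exact dvd_zero _)
    have h4 := (heq' (T v + l * m + v.length)).2 (by rw [add_sub_cancel_left])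
    have h5 : (v.length : ℤ) ∣ u.length := by
      have := dvd_sub h2 h1
      have e : T u + j * m + u.length - (T v + l * m) - (T u + j * m - (T v + l * m)) =
        (u.length : ℤ) := by ring
      rwa [e] at this
    have h6 : (u.length : ℤ) ∣ v.length := by
      have := dvd_sub h4 h3
      have e : T v + l * m + v.length - (T u + j * m) - (T v + l * m - (T u + j * m)) =
        (v.length : ℤ) := by ring
      rwa [e] at this
    have hlen : u.length = v.length :=
      Nat.dvd_antisymm (by exact_mod_cast h6) (by exact_mod_cast h5)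
    have hmv : (m : ℤ) ∣ v.length := by
      have := (hdiv v hv).2
      exact ⟨(v.length / m : ℕ), by rw [mul_comm]; exact_mod_cast this⟩
    have hm1 : (m : ℤ) ∣ T u - T v := by
      have h7 := hmv.trans h1
      have e : T u - T v = (T u + j * m - (T v + l * m)) - m * (j - l) := by ring
      rw [e]
      exact dvd_sub h7 (Dvd.intro _ rfl)
    have huv : u = v := by
      have h8 := (hG.occ_iff hv (T u)).2 hm1
      rw [← hlen, block_blk, hG.blk_T hu] at h8
      exact h8
    subst huv
    have h9 : (u.length : ℤ) ∣ (j - l) * m := by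
      have e : ((j : ℤ) - l) * m = T u + j * m - (T u + l * m) := by ring
      rw [e]; exact h1
    have hk := (hdiv u hu).2
    set k := u.length / m with hkdef
    have h10 : ((k : ℤ) * m) ∣ (j - l) * m := by
      have : ((u.length : ℕ) : ℤ) = k * m := by exact_mod_cast hk
      rwa [this] at h9
    have h11 : (k : ℤ) ∣ j - l := Int.dvd_of_mul_dvd_mul_right hmZ.ne' h10
    have h12 : (j : ℤ) - l = 0 := by
      apply Int.eq_zero_of_abs_lt_dvd h11
      rw [abs_lt]
      constructor <;> omega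
    have : j = l := by omega
    rw [this]
  rw [hSF]
  refine ⟨(idx.finite_toSet).image _, ?_⟩
  rw [hinj.ncard_image, Set.ncard_coe_finset, hidx, Finset.card_sigma,
    Finset.sum_mul]
  apply Finset.sum_congr rfl
  intro u hu
  rw [Finset.card_range, ← (hdiv u hu).2]

/-- a word with two different factorizations is periodic and contains all the roots -/
lemma exists_good (h0 : [] ∉ X) (hrank : rc X = X.card)
    (hroots : ∀ u ∈ X, ∀ v ∈ X, ∀ ρ σ, IsRoot ρ u → IsRoot σ v → ρ ~r σ)
    (hm0 : 0 < m) (hroot : ∀ u ∈ X, IsRoot (root u) u) (hm : ∀ u ∈ X, (root u).length = m)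
    (hw : TwoDifferent X w) : ∃ T, Good X root m w T := by
  classical
  obtain ⟨c₁, c₂, h₁, h₂, hne⟩ := hw
  obtain ⟨a, haX, ha⟩ := ConjugateRoots.result X h0 hrank hroots w c₁ c₂ h₁ h₂ hne c₁ h₁
  have key : ∀ j, (m : ℤ) ∣ j - c₁ 0 → blk w j m = root a := by
    intro j hj
    obtain ⟨i, hi1, hi2⟩ := fact_cover h₁ j
    rw [fact_root hm0 hroot hm h₁ hj hi1 hi2, ha i]
  have hmZ : (0 : ℤ) < m := by exact_mod_cast hm0
  have hper : (m : ℤ) ∈ per w := by
    intro i
    obtain ⟨r, hr⟩ := Int.eq_ofNat_of_zero_le (Int.emod_nonneg (i - c₁ 0) hmZ.ne')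
    have hr2 : r < m := by
      have := Int.emod_lt_of_pos (i - c₁ 0) hmZ
      rw [hr] at this
      exact_mod_cast this
    have hi : i = c₁ 0 + m * ((i - c₁ 0) / m) + r := by
      have := Int.emod_add_mul_ediv (i - c₁ 0) m
      rw [hr] at this
      linarith
    set j := c₁ 0 + m * ((i - c₁ 0) / m) with hj
    have h3 : blk w (j + m) m = blk w j m := by
      rw [key j ⟨(i - c₁ 0) / m, by rw [hj]; ring⟩,
        key (j + m) ⟨(i - c₁ 0) / m + 1, by rw [hj]; ring⟩]
    have h4 := blk_eq h3 hr2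
    rw [hi, ← h4]
    congr 1
    ring
  have hT := exists_T hper (t := c₁ 0) (key _ (by rw [sub_self]; exact dvd_zero _))
    (fun u hu => hroots a haX u hu _ _ (hroot a haX) (hroot u hu))
  have : ∀ u, ∃ t, u ∈ X → blk w t m = root u := by
    intro u
    by_cases hu : u ∈ X
    · obtain ⟨t, ht⟩ := hT u hu
      exact ⟨t, fun _ => ht⟩
    · exact ⟨0, fun h => absurd h hu⟩
  choose T hT' using this
  exact ⟨T, hm0, hper, hroot, hm, hT'⟩

lemma fact_iff (h0 : [] ∉ X) (hrank : rc X = X.card)
    (hroots : ∀ u ∈ X, ∀ v ∈ X, ∀ ρ σ, IsRoot ρ u → IsRoot σ v → ρ ~r σ)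
    (hw : TwoDifferent X w) (hG : Good X root m w T) (c : ℤ → ℤ) :
    IsFact X w c ↔ ∃ u ∈ X, block w (c 0) (c 0 + u.length) = u ∧
      ∀ i, c i = c 0 + i * u.length := by
  constructor
  · intro hc
    obtain ⟨c₁, c₂, h₁, h₂, hne⟩ := hw
    obtain ⟨a, haX, ha⟩ := ConjugateRoots.result X h0 hrank hroots w c₁ c₂ h₁ h₂ hne c hc
    have hstep : ∀ i, c (i + 1) = c i + a.length := by
      intro i
      have h3 : (block w (c i) (c (i + 1))).length = (c (i + 1) - c i).toNat := by simp [block]
      rw [ha i] at h3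
      have := hc.lt i
      omega
    refine ⟨a, haX, ?_, ?_⟩
    · have := ha 0
      rw [hstep 0] at this
      exact this
    · intro i
      induction i using Int.induction_on with
      | zero => simp
      | succ i ih => rw [hstep, ih]; ring
      | pred i ih =>
        have h4 := hstep (-(i : ℤ) - 1)
        rw [sub_add_cancel, ih] at h4
        linarith
  · rintro ⟨u, hu, h1, h2⟩
    exact hG.fact hu h1 h2

lemma Good.two (hG : Good X root m w T) (hs : m < ∑ u ∈ X, u.length) : TwoDifferent X w := by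
  obtain ⟨hfin, hcount⟩ := hG.count
  have h1 : 1 < Set.ncard {C : Set ℤ | ∃ c : ℤ → ℤ, (∃ u ∈ X,
      block w (c 0) (c 0 + u.length) = u ∧ ∀ i, c i = c 0 + i * u.length) ∧
      Set.range c = C} := by
    by_contra hcon
    push Not at hcon
    have := Nat.mul_le_mul_right m hcon
    omega
  obtain ⟨C, ⟨c, ⟨u, hu, h2, h3⟩, rfl⟩, C', ⟨c', ⟨u', hu', h2', h3'⟩, rfl⟩, hne⟩ :=
    (Set.one_lt_ncard hfin).1 h1
  exact ⟨c, c', hG.fact hu h2 h3, hG.fact hu' h2' h3', hne⟩

/-- two good words differ by a shift -/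
lemma Good.shift (hG : Good X root m w T) {w' : ℤ → α} {T' : List α → ℤ}
    (hG' : Good X root m w' T') {u : List α} (hu : u ∈ X) :
    ∀ i, w' i = w (i + (T u - T' u)) := by
  intro i
  have hmZ : (0 : ℤ) < m := by exact_mod_cast hG.pos
  obtain ⟨r, hr⟩ := Int.eq_ofNat_of_zero_le (Int.emod_nonneg (i - T' u) hmZ.ne')
  have hr2 : r < m := by
    have := Int.emod_lt_of_pos (i - T' u) hmZ
    rw [hr] at this
    exact_mod_cast this
  have hi : i = T' u + r + m * ((i - T' u) / m) := by
    have := Int.emod_add_mul_ediv (i - T' u) m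
    rw [hr] at this
    linarith
  have h1 : blk w (T u) m = blk w' (T' u) m := by rw [hG.occ u hu, hG'.occ u hu]
  have h2 : (blk w (T u) m)[r]? = (blk w' (T' u) m)[r]? := by rw [h1]
  have h3 : w (T u + r) = w' (T' u + r) := by simpa [blk, hr2] using h2
  calc w' i = w' (T' u + r + m * ((i - T' u) / m)) := by rw [← hi]
    _ = w' (T' u + r) := mul_mem_per hG'.mem _ _
    _ = w (T u + r) := h3.symm
    _ = w (T u + r + m * ((i - T' u) / m)) := (mul_mem_per hG.mem _ _).symm
    _ = w (i + (T u - T' u)) := by congr 1; linarith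

/-- shifts of a good word are good -/
lemma Good.of_shift (hG : Good X root m w T) (j : ℤ) :
    Good X root m (fun i => w (i + j)) (fun u => T u - j) := by
  refine ⟨hG.pos, ?_, hG.isRoot, hG.len, fun u hu => ?_⟩
  · intro i
    show w (i + m + j) = w (i + j)
    rw [show i + m + j = i + j + m by ring]
    exact hG.mem _
  · rw [← hG.occ u hu]
    unfold blk
    apply List.map_congr_left
    intro k _
    show w (T u - j + k + j) = w (T u + k)
    congr 1; ring

/-- there is a good word -/
lemma exists_word (hX : X.Nonempty)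
    (hroots : ∀ u ∈ X, ∀ v ∈ X, ∀ ρ σ, IsRoot ρ u → IsRoot σ v → ρ ~r σ)
    (hm0 : 0 < m) (hroot : ∀ u ∈ X, IsRoot (root u) u) (hm : ∀ u ∈ X, (root u).length = m) :
    ∃ (w : ℤ → α) (T : List α → ℤ), Good X root m w T := by
  classical
  obtain ⟨a, haX⟩ := hX
  have hmZ : (0 : ℤ) < m := by exact_mod_cast hm0
  have hlt : ∀ i : ℤ, (i % m).toNat < (root a).length := by
    intro i
    rw [hm a haX]
    have h1 := Int.emod_lt_of_pos i hmZ
    have h2 := Int.emod_nonneg i hmZ.ne'
    omega
  let w : ℤ → α := fun i => (root a)[(i % m).toNat]'(hlt i)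
  have hper : (m : ℤ) ∈ per w := by
    intro i
    show (root a)[((i + m) % m).toNat]'(hlt _) = (root a)[(i % m).toNat]'(hlt _)
    congr 2
    rw [Int.add_emod_right]
  have hblk : blk w 0 m = root a := by
    apply List.ext_getElem
    · simp [blk, hm a haX]
    · intro k h1 h2
      rw [blk_length] at h1
      simp only [blk, List.getElem_map, List.getElem_range, w]
      congr 1
      rw [zero_add, Int.emod_eq_of_lt (by omega) (by exact_mod_cast h1), Int.toNat_natCast]
  have hT := exists_T hper hblk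
    (fun u hu => hroots a haX u hu _ _ (hroot a haX) (hroot u hu))
  have : ∀ u, ∃ t, u ∈ X → blk w t m = root u := by
    intro u
    by_cases hu : u ∈ X
    · obtain ⟨t, ht⟩ := hT u hu
      exact ⟨t, fun _ => ht⟩
    · exact ⟨0, fun h => absurd h hu⟩
  choose T hT' using this
  exact ⟨w, T, hm0, hper, hroot, hm, hT'⟩

end

/-- **Complete answer.** Let `X` be a nonempty finite set of nonempty words with
`r_c(X) = card X` whose primitive roots are pairwise conjugate, and let `m` be the common length of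
the roots. If a bi-infinite word `w` has two different `X`-factorizations, then its periods are the
multiples of `m`; its `X`-factorizations are exactly the factorizations `u^ℤ` (`u ∈ X`) starting at
an occurrence of `u`; every `u ∈ X` occurs in `w`, at exactly the positions of one residue class
modulo `m`; and the number of cut sets is `s(X) / m`, where `s(X)` is the sum of the lengths. If
`s(X) = m` there is no such `w`; if `s(X) > m` there are exactly `m` such words `w`, the shifts of
one of them. -/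
theorem result {α : Type*} (X : Finset (List α)) (hX : X.Nonempty) (h0 : [] ∉ X)
    (hrank : rc X = X.card)
    (hroots : ∀ u ∈ X, ∀ v ∈ X, ∀ ρ σ, IsRoot ρ u → IsRoot σ v → ρ ~r σ) :
    ∃ m : ℕ, 0 < m ∧ (∀ u ∈ X, ∀ ρ, IsRoot ρ u → ρ.length = m) ∧
      (∀ w : ℤ → α, TwoDifferent X w →
        (∀ p : ℤ, (∀ i, w (i + p) = w i) ↔ (m : ℤ) ∣ p) ∧
        (∀ c : ℤ → ℤ, IsFact X w c ↔ ∃ u ∈ X, block w (c 0) (c 0 + u.length) = u ∧
          ∀ i, c i = c 0 + i * u.length) ∧
        (∀ u ∈ X, ∃ t : ℤ, ∀ s : ℤ, block w s (s + u.length) = u ↔ (m : ℤ) ∣ s - t) ∧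
        {C : Set ℤ | ∃ c, IsFact X w c ∧ Set.range c = C}.ncard * m = ∑ u ∈ X, u.length) ∧
      (∑ u ∈ X, u.length = m → ∀ w : ℤ → α, ¬ TwoDifferent X w) ∧
      (m < ∑ u ∈ X, u.length → ∃ w₀ : ℤ → α,
        (∀ w : ℤ → α, TwoDifferent X w ↔ ∃ j : ℤ, ∀ i, w i = w₀ (i + j)) ∧
        {w : ℤ → α | TwoDifferent X w}.ncard = m) := by
  classical
  have hex : ∀ u ∈ X, ∃ ρ, IsRoot ρ u := fun u hu =>
    exists_root _ u le_rfl (fun h => h0 (h ▸ hu))
  choose! root hroot using hex
  obtain ⟨a, haX⟩ := id hX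
  obtain ⟨m, hmdef⟩ : ∃ m, m = (root a).length := ⟨_, rfl⟩
  have hlen : ∀ u ∈ X, ∀ ρ, IsRoot ρ u → ρ.length = m := fun u hu ρ hρ => by
    rw [hmdef]
    exact (hroots u hu a haX _ _ hρ (hroot a haX)).perm.length_eq
  have hm : ∀ u ∈ X, (root u).length = m := fun u hu => hlen u hu _ (hroot u hu)
  have hm0 : 0 < m := by
    rw [hmdef]
    exact List.length_pos_iff.2 (hroot a haX).1.1
  have hmZ : (0 : ℤ) < m := by exact_mod_cast hm0
  -- the count
  have hcount : ∀ (w : ℤ → α) (T : List α → ℤ), TwoDifferent X w → Good X root m w T →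
      {C : Set ℤ | ∃ c, IsFact X w c ∧ Set.range c = C}.Finite ∧
      {C : Set ℤ | ∃ c, IsFact X w c ∧ Set.range c = C}.ncard * m = ∑ u ∈ X, u.length := by
    intro w T hw hG
    have := hG.count
    simp only [fact_iff h0 hrank hroots hw hG]
    exact this
  refine ⟨m, hm0, hlen, ?_, ?_, ?_⟩
  · intro w hw
    obtain ⟨T, hG⟩ := exists_good h0 hrank hroots hm0 hroot hm hw
    refine ⟨fun p => ⟨fun h => ?_, fun h => dvd_mem_per hG.mem h⟩,
      fact_iff h0 hrank hroots hw hG, fun u hu => ⟨T u, hG.occ_iff hu⟩, (hcount w T hw hG).2⟩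
    exact dvd_of_per hG.mem (t := T a) (by rw [hG.occ a haX]; exact (hroot a haX).1) h
  · intro hs w hw
    obtain ⟨T, hG⟩ := exists_good h0 hrank hroots hm0 hroot hm hw
    obtain ⟨hfin, hc⟩ := hcount w T hw hG
    obtain ⟨c₁, c₂, h₁, h₂, hne⟩ := hw
    have h1 : 1 < {C : Set ℤ | ∃ c, IsFact X w c ∧ Set.range c = C}.ncard :=
      (Set.one_lt_ncard hfin).2 ⟨_, ⟨c₁, h₁, rfl⟩, _, ⟨c₂, h₂, rfl⟩, hne⟩
    rw [hs] at hc
    have := Nat.mul_lt_mul_of_pos_right h1 hm0
    omega
  · intro hs
    obtain ⟨w₀, T₀, hG₀⟩ := exists_word hX hroots hm0 hroot hm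
    have hiff : ∀ w : ℤ → α, TwoDifferent X w ↔ ∃ j : ℤ, ∀ i, w i = w₀ (i + j) := by
      intro w
      constructor
      · intro hw
        obtain ⟨T, hG⟩ := exists_good h0 hrank hroots hm0 hroot hm hw
        exact ⟨_, hG₀.shift hG haX⟩
      · rintro ⟨j, hj⟩
        have : w = fun i => w₀ (i + j) := funext hj
        rw [this]
        exact (hG₀.of_shift j).two hs
    refine ⟨w₀, hiff, ?_⟩
    have hset : {w : ℤ → α | TwoDifferent X w} =
        (fun (j : ℕ) (i : ℤ) => w₀ (i + j)) '' (Finset.range m : Set ℕ) := by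
      ext w
      rw [Set.mem_ofPred_eq, hiff]
      constructor
      · rintro ⟨j, hj⟩
        have h1 := Int.emod_lt_of_pos j hmZ
        have h2 := Int.emod_nonneg j hmZ.ne'
        refine ⟨(j % m).toNat, ?_, ?_⟩
        · rw [Finset.mem_coe, Finset.mem_range]; omega
        · funext i
          show w₀ (i + ((j % m).toNat : ℕ)) = w i
          rw [hj i, Int.toNat_of_nonneg h2]
          have h3 := mul_mem_per hG₀.mem (j / m) (i + j % m)
          rw [← h3]
          congr 1
          have := Int.emod_add_mul_ediv j m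
          linarith
      · rintro ⟨j, -, rfl⟩
        exact ⟨j, fun i => rfl⟩
    rw [hset, Set.InjOn.ncard_image, Set.ncard_coe_finset, Finset.card_range]
    intro j hj l hl heq
    rw [Finset.mem_coe, Finset.mem_range] at hj hl
    have h1 : ((j : ℤ) - l) ∈ per w₀ := by
      intro i
      have := congrFun heq (i - l)
      simp only [sub_add_cancel] at this
      rw [← this]
      congr 1; ring
    have h2 := dvd_of_per hG₀.mem (t := T₀ a) (by rw [hG₀.occ a haX]; exact (hroot a haX).1) h1
    have h3 : (j : ℤ) - l = 0 := by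
      apply Int.eq_zero_of_abs_lt_dvd h2
      rw [abs_lt]
      constructor <;> omega
    omega

end Pool.Agent.Results.MP_b2f7c1_co.AllFactorizations
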